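import Mathlib
import Pool.Agent.N823.LineGap
import Pool.Agent.TH671.DU.Red

/-!
# Q1 is a statement on unions of lines through a point

For a local finite scheme `Γ` let `ℓ n` be the least number of lines through the origin of an affine
space whose union contains `Γ^n`, embedded with its closed point in the origin. The numbers `ℓ n`
have the same growth as `deg Γ^n + δ(Γ^n)`, with an explicit inequality in one direction. So Q1 for
`Γ` is the statement that `(ℓ n)^{1/n}` tends to `deg Γ`; there is a gap which is uniform in all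
local schemes of a given degree; and Q1 for all finite schemes is the statement for all local
ones.
-/

set_option autoImplicit false

namespace Pool.Agent.Results.MP_44217d_ag.LinesThroughPoint

open Pool.Agent.H826R3.SM Pool.Agent.TH671.DU Pool.Agent.N86.SQ Pool.Agent.N823
open Filter Topology

/-- Let `k` be an algebraically closed field of any characteristic. For a local finite-dimensional
commutative `k`-algebra `A` let `Γ = Spec A`, `d = dim A`; `Pow k A n` is the coordinate ring of
`Γ^n`, `InLines k (Pow k A n) W` says that `Γ^n`, embedded with its closed point in the origin of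
some affine space, is contained in a union of `W` lines through the origin,
`ℓ n = lineNumber k (Pow k A n)` is the least number of such lines, and `rate k A` is the limit of
`(deg Γ^n + δ(Γ^n))^{1/n}`.

1. For every such `A`: the least number `ℓ n` is attained; `d^n + δ(Γ^n) ≤ (d n + 2) ℓ n` and
   `(rate Γ)^n ≤ (d n + 2) ℓ n` for all `n`; for every `η > 0` there is a `C` such that
   `ℓ n ≤ C (rate Γ + η)^n` for all `n`; `(ℓ n)^{1/n}` tends to `rate Γ`; and Q1 holds for `Γ` if and
   only if `(ℓ n)^{1/n}` tends to `d`.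
2. For every `d` there is an `ε > 0` such that Q1 holds for a local `Γ` of degree `d` if and only if
   `(d n + 2) ℓ n < (d + ε)^n` for some `n ≥ 1`.
3. Q1 holds for all finite schemes if and only if `(ℓ n)^{1/n}` tends to `d` for all local ones. -/
theorem result (k : Type) [Field k] [IsAlgClosed k] :
    (∀ (A : Type) [CommRing A] [Algebra k A] [Module.Finite k A] [IsLocalRing A],
      (∀ n : ℕ, InLines k (Pow k A n) (lineNumber k (Pow k A n)) ∧
        ∀ W : ℕ, InLines k (Pow k A n) W → lineNumber k (Pow k A n) ≤ W) ∧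
      (∀ n : ℕ, Module.finrank k A ^ n + defect k (Pow k A n) ≤
        (Module.finrank k A * n + 2) * lineNumber k (Pow k A n)) ∧
      (∀ n : ℕ, rate k A ^ n ≤
        ((Module.finrank k A : ℝ) * n + 2) * lineNumber k (Pow k A n)) ∧
      (∀ η : ℝ, 0 < η → ∃ C : ℝ, ∀ n : ℕ,
        (lineNumber k (Pow k A n) : ℝ) ≤ C * (rate k A + η) ^ n) ∧
      Tendsto (fun n : ℕ => (lineNumber k (Pow k A (n + 1)) : ℝ) ^ (1 / ((n : ℝ) + 1))) atTop
        (𝓝 (rate k A)) ∧
      (QOne k A ↔ Tendsto (fun n : ℕ =>
        (lineNumber k (Pow k A (n + 1)) : ℝ) ^ (1 / ((n : ℝ) + 1))) atTop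
          (𝓝 (Module.finrank k A : ℝ)))) ∧
    (∀ d : ℕ, ∃ ε : ℝ, 0 < ε ∧ ∀ (A : Type) [CommRing A] [Algebra k A] [Module.Finite k A]
      [IsLocalRing A], Module.finrank k A = d →
        (QOne k A ↔ ∃ n : ℕ, 1 ≤ n ∧
          ((d : ℝ) * n + 2) * lineNumber k (Pow k A n) < ((d : ℝ) + ε) ^ n)) ∧
    ((∀ (A : Type) [CommRing A] [Algebra k A] [Module.Finite k A] [Nontrivial A], QOne k A) ↔
      ∀ (A : Type) [CommRing A] [Algebra k A] [Module.Finite k A] [IsLocalRing A],
        Tendsto (fun n : ℕ => (lineNumber k (Pow k A (n + 1)) : ℝ) ^ (1 / ((n : ℝ) + 1))) atTop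
          (𝓝 (Module.finrank k A : ℝ))) := by
  refine ⟨?_, line_gap, ?_⟩
  · intro A _ _ _ _
    refine ⟨fun n => ⟨inLines_lineNumber A n, fun W hW => Nat.sInf_le hW⟩, defect_le_lines A,
      rate_pow_le_lines A, fun η hη => ?_, lineNumber_tendsto A, qOne_iff_lines A⟩
    obtain ⟨C, -, hC⟩ := lineNumber_growth (k := k) A η hη
    exact ⟨C, hC⟩
  · rw [qOne_almost_reduced (k := k) fun _ => 0]
    constructor
    · intro h A _ _ _ _
      exact (qOne_iff_lines A).1 ((qOne_add_points A 0).1 (h A))
    · intro h A _ _ _ _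
      exact (qOne_add_points A 0).2 ((qOne_iff_lines A).2 (h A))

end Pool.Agent.Results.MP_44217d_ag.LinesThroughPoint
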