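import Mathlib
import Pool.Agent.N823.SpecialRate

/-!
# Growth rates of local special fibres of families over `k[[t]]`

For a finite flat family over `k[[t]]` the growth rate of a local closed subscheme of the special
fibre is at most the growth rate of the geometric generic fibre. So Q1 passes from the geometric
generic fibre to the special fibre if the latter is local. The generic fibre is an arbitrary finite
scheme over `k((t))`.
-/

set_option autoImplicit false

namespace Pool.Agent.Results.MP_44217d_ag.SpecialFibres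

open Pool.Agent.H826R3.SM Pool.Agent.TH671.DU Pool.Agent.N86.SQ Pool.Agent.N823
open TensorProduct PowerSeries

/-- Let `k` be an algebraically closed field of any characteristic, `𝒜` a finite free
`k[[t]]`-algebra, `LL k` the algebraic closure of `k((t))`, and `π : 𝒜 → A₀` a surjection to a local
`k`-algebra which extends `k[[t]] → k`, `t ↦ 0` (so `Spec A₀` is a closed subscheme of the special
fibre).

* The growth rate of `Spec A₀` over `k` is at most the growth rate of the geometric generic fibre
  `Spec (LL k ⊗ 𝒜)` over `LL k`.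
* If the kernel of `π` is `t 𝒜`, so that `Spec A₀` is the special fibre, then Q1 for the geometric
  generic fibre, over the field `LL k`, implies Q1 for `Spec A₀`. -/
theorem result (k : Type) [Field k] [IsAlgClosed k] (𝒜 A₀ : Type) [CommRing 𝒜] [Algebra k⟦X⟧ 𝒜]
    [Module.Finite k⟦X⟧ 𝒜] [Module.Free k⟦X⟧ 𝒜] [CommRing A₀] [Algebra k A₀] [IsLocalRing A₀]
    (π : 𝒜 →+* A₀) (hπs : Function.Surjective π)
    (hπC : ∀ c : k⟦X⟧, π (algebraMap k⟦X⟧ 𝒜 c) = algebraMap k A₀ (PowerSeries.constantCoeff c)) :
    (∃ _ : Nontrivial (LL k ⊗[k⟦X⟧] 𝒜), rate k A₀ ≤ rate (LL k) (LL k ⊗[k⟦X⟧] 𝒜)) ∧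
    ((∀ x, π x = 0 → ∃ y, x = (PowerSeries.X : k⟦X⟧) • y) →
      QOne (LL k) (LL k ⊗[k⟦X⟧] 𝒜) → QOne k A₀) :=
  ⟨rate_special_le π hπs hπC, fun h => qOne_special π hπs hπC h⟩

end Pool.Agent.Results.MP_44217d_ag.SpecialFibres
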